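import Pool.Agent.H73.ZP.Bda
import Pool.Agent.H28.AP.Df

/-!
The tie lemma for bodies with three pairwise antipodal points (helper19, helper28).

Coordinates: `(0,0)` and `(1,0)` are in the convex set `L` and `0 ≤ x ≤ 1` on `L`.  Either `y ≤ 0` on `L`,
or there is a point `p` of `L` such that `p.1 + s p.2 ≤ x + s y ≤ 1` and `-p.1 + t p.2 ≤ -x + t y ≤ 0` on `L`,
`0 < s + t`.  Three pairwise intersecting translates `L + x₁`, `L + x₂`, `L + x₃` with
`x₁.2 = x₂.2 ≤ x₃.2` have a common point.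
-/

open Real

namespace TL

open ZP

theorem conv3 {T : Set V} (hT : Convex ℝ T) {A B C : V} (hA : A ∈ T) (hB : B ∈ T) (hC : C ∈ T)
    {a b c : ℝ} (ha : 0 ≤ a) (hb : 0 ≤ b) (hc : 0 ≤ c) (h : a + b + c = 1) :
    a • A + b • B + c • C ∈ T := by
  have := hT.sum_mem (t := (Finset.univ : Finset (Fin 3))) (w := ![a, b, c]) (z := ![A, B, C])
    (by intro i _; fin_cases i <;> simp [ha, hb, hc])
    (by simp [Fin.sum_univ_three, h])
    (by intro i _; fin_cases i <;> simp [hA, hB, hC])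
  simpa [Fin.sum_univ_three] using this

/-- a segment crossing the line `y = 0` -/
theorem cross {T : Set V} (hT : Convex ℝ T) {w z : V} (hw : w ∈ T) (hz : z ∈ T)
    (h1 : w.2 ≤ 0) (h2 : 0 ≤ z.2) : ∃ τ : ℝ, 0 ≤ τ ∧ τ ≤ 1 ∧
      ((1 - τ) * w.1 + τ * z.1, (0 : ℝ)) ∈ T ∧ (1 - τ) * w.2 + τ * z.2 = 0 := by
  obtain ⟨τ, h3, h4, h5⟩ : ∃ τ : ℝ, 0 ≤ τ ∧ τ ≤ 1 ∧ (1 - τ) * w.2 + τ * z.2 = 0 := by
    by_cases h0 : w.2 = 0
    · exact ⟨0, le_rfl, zero_le_one, by rw [h0]; ring⟩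
    · have hlt : w.2 < 0 := lt_of_le_of_ne h1 h0
      have hd : 0 < z.2 - w.2 := by linarith
      refine ⟨- w.2 / (z.2 - w.2), div_nonneg (by linarith) hd.le, ?_, ?_⟩
      · rw [div_le_one hd]; linarith
      · field_simp
        ring
  refine ⟨τ, h3, h4, ?_, h5⟩
  have := hT hw hz (by linarith : 0 ≤ 1 - τ) h3 (by ring)
  have e : (1 - τ) • w + τ • z = ((1 - τ) * w.1 + τ * z.1, (0 : ℝ)) := by
    ext
    · simp
    · simp only [Prod.snd_add, Prod.smul_snd, smul_eq_mul]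
      exact h5
  rwa [e] at this

theorem onaxis {L : Set V} (hL : Convex ℝ L) (h0 : ((0, 0) : V) ∈ L) (h1 : ((1, 0) : V) ∈ L) {x : ℝ}
    (hx : 0 ≤ x) (hx1 : x ≤ 1) : ((x, 0) : V) ∈ L := by
  have := hL h0 h1 (by linarith : 0 ≤ 1 - x) hx (by ring)
  simpa using this

/-- the third translate meets the common segment -/
theorem interval {L : Set V} (hL : Convex ℝ L) (h0 : ((0, 0) : V) ∈ L) (h1 : ((1, 0) : V) ∈ L)
    {d : ℝ} (hd0 : 0 ≤ d) (hd1 : d ≤ 1) {x₃ : V} {z₁ z₂ : ℝ} (hz1 : ((z₁, 0) : V) - x₃ ∈ L)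
    (hz2 : ((z₂, 0) : V) - x₃ ∈ L) (e1 : z₁ ≤ 1) (e2 : d ≤ z₂) :
    ∃ o : V, o ∈ L ∧ o - ((d, 0) : V) ∈ L ∧ o - x₃ ∈ L := by
  obtain ⟨z, hz, hzd, hz1'⟩ : ∃ z : ℝ, ((z, 0) : V) - x₃ ∈ L ∧ d ≤ z ∧ z ≤ 1 := by
    by_cases hc : d ≤ z₁
    · exact ⟨z₁, hz1, hc, e1⟩
    · push Not at hc
      refine ⟨d, ?_, le_rfl, hd1⟩
      have hpos : 0 < z₂ - z₁ := by linarith
      have hτ0 : 0 ≤ (d - z₁) / (z₂ - z₁) := div_nonneg (by linarith) hpos.le
      have hτ1 : (d - z₁) / (z₂ - z₁) ≤ 1 := by rw [div_le_one hpos]; linarith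
      have := hL hz1 hz2 (by linarith : 0 ≤ 1 - (d - z₁) / (z₂ - z₁)) hτ0 (by ring)
      have e : (1 - (d - z₁) / (z₂ - z₁)) • (((z₁, 0) : V) - x₃) +
          ((d - z₁) / (z₂ - z₁)) • (((z₂, 0) : V) - x₃) = ((d, 0) : V) - x₃ := by
        ext
        · simp only [Prod.fst_add, Prod.smul_fst, Prod.fst_sub, smul_eq_mul]
          field_simp
          ring
        · simp only [Prod.snd_add, Prod.smul_snd, Prod.snd_sub, smul_eq_mul]
          ring
      rwa [e] at this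
  refine ⟨(z, 0), onaxis hL h0 h1 (by linarith) hz1', ?_, hz⟩
  have e : ((z, 0) : V) - (d, 0) = (z - d, 0) := by ext <;> simp
  rw [e]
  exact onaxis hL h0 h1 (by linarith) (by linarith)

/-- case (E) -/
theorem tieE {L : Set V} (hL : Convex ℝ L) (h0 : ((0, 0) : V) ∈ L) (h1 : ((1, 0) : V) ∈ L)
    (hx : ∀ z ∈ L, 0 ≤ z.1 ∧ z.1 ≤ 1) (hy : ∀ z ∈ L, z.2 ≤ 0)
    {d : ℝ} (hd0 : 0 ≤ d) (hd1 : d ≤ 1) {x₃ w w' : V} (h3 : 0 ≤ x₃.2) (hw : w ∈ L)
    (hw3 : w - x₃ ∈ L) (hw' : w' - ((d, 0) : V) ∈ L) (hw3' : w' - x₃ ∈ L) :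
    ∃ o : V, o ∈ L ∧ o - ((d, 0) : V) ∈ L ∧ o - x₃ ∈ L := by
  have a1 := hx w hw
  have a2 := hx _ hw3
  have a3 := hx _ hw'
  have a4 := hx _ hw3'
  have b1 := hy _ hw
  have b2 := hy _ hw'
  simp only [Prod.fst_sub, Prod.snd_sub] at a2 a3 a4 b2
  have hT : Convex ℝ {z : V | z - x₃ ∈ L} := by
    intro z hz z' hz' a b ha hb hab
    have := hL hz hz' ha hb hab
    have e : a • (z - x₃) + b • (z' - x₃) = (a • z + b • z') - x₃ := by
      have : x₃ = (a + b) • x₃ := by rw [hab, one_smul]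
      conv_rhs => rw [this]
      module
    rwa [e] at this
  obtain ⟨τ, t0, t1, t2, t3⟩ := cross hT (w := w) (z := x₃) hw3 (by show x₃ - x₃ ∈ L; rw [sub_self]; exact h0) b1 h3
  obtain ⟨σ, s0, s1, s2, s3⟩ := cross hT (w := w') (z := x₃ + (1, 0)) hw3'
    (by simpa using h1) (by linarith) (by simpa using h3)
  refine interval hL h0 h1 hd0 hd1 t2 s2 ?_ ?_
  · nlinarith
  · simp only [Prod.fst_add]
    nlinarith

/-- case (B') with `P` above the line -/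
theorem above {L : Set V} (hL : Convex ℝ L) (h0 : ((0, 0) : V) ∈ L) (h1 : ((1, 0) : V) ∈ L)
    {p : V} {s t : ℝ} (hst : 0 < s + t)
    (ha : ∀ z ∈ L, p.1 + s * p.2 ≤ z.1 + s * z.2 ∧ z.1 + s * z.2 ≤ 1)
    (hb : ∀ z ∈ L, -p.1 + t * p.2 ≤ -z.1 + t * z.2 ∧ -z.1 + t * z.2 ≤ 0)
    {x₃ w : V} (hw : w ∈ L) (hw3 : w - x₃ ∈ L) (hP : 0 ≤ (x₃ + p).2) : x₃ + p ∈ L := by
  have a1 := ha w hw
  have a2 := ha _ hw3
  have b1 := hb w hw
  have b2 := hb _ hw3
  simp only [Prod.fst_sub, Prod.snd_sub] at a2 b2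
  simp only [Prod.snd_add] at hP
  have hy : x₃.2 + p.2 ≤ w.2 := by
    have : (s + t) * p.2 ≤ (s + t) * (w.2 - x₃.2) := by linarith [a2.1, b2.1]
    have := le_of_mul_le_mul_left this hst
    linarith
  by_cases hw0 : w.2 = 0
  · have e2 : x₃.2 + p.2 = 0 := by linarith
    have e : x₃ + p = w := by
      have k1 : p.2 = w.2 - x₃.2 := by linarith
      ext
      · rw [k1] at a2 b2
        simp only [Prod.fst_add]
        linarith [a2.1, b2.1]
      · simp only [Prod.snd_add]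
        linarith
    rw [e]; exact hw
  · have hwpos : 0 < w.2 := lt_of_le_of_ne (by linarith) (Ne.symm hw0)
    obtain ⟨τ, hτ⟩ : ∃ τ, τ = (x₃.2 + p.2) / w.2 := ⟨_, rfl⟩
    have hτw : τ * w.2 = x₃.2 + p.2 := by rw [hτ]; field_simp
    have hτ0 : 0 ≤ τ := by rw [hτ]; positivity
    have hτ1 : τ ≤ 1 := by rw [hτ, div_le_one hwpos]; exact hy
    have k1 : x₃.1 + p.1 ≤ τ * w.1 + (1 - τ) := by
      have : (1 - τ) * (w.1 + s * w.2) ≤ (1 - τ) * 1 :=
        mul_le_mul_of_nonneg_left a1.2 (by linarith)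
      have e : s * (τ * w.2) = s * (x₃.2 + p.2) := by rw [hτw]
      nlinarith [a2.1]
    have k2 : τ * w.1 ≤ x₃.1 + p.1 := by
      have : (1 - τ) * (-w.1 + t * w.2) ≤ (1 - τ) * 0 :=
        mul_le_mul_of_nonneg_left b1.2 (by linarith)
      have e : t * (τ * w.2) = t * (x₃.2 + p.2) := by rw [hτw]
      nlinarith [b2.1]
    have := conv3 hL hw h1 h0 (a := τ) (b := x₃.1 + p.1 - τ * w.1)
      (c := 1 - τ - (x₃.1 + p.1 - τ * w.1)) hτ0 (by linarith) (by linarith) (by ring)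
    have e : τ • w + (x₃.1 + p.1 - τ * w.1) • ((1, 0) : V) +
        (1 - τ - (x₃.1 + p.1 - τ * w.1)) • ((0, 0) : V) = x₃ + p := by
      ext
      · simp
      · simp only [Prod.snd_add, Prod.smul_snd, smul_eq_mul, mul_zero, add_zero]
        exact hτw
    rwa [e] at this

/-- case (B') -/
theorem tieB {L : Set V} (hL : Convex ℝ L) (h0 : ((0, 0) : V) ∈ L) (h1 : ((1, 0) : V) ∈ L)
    (hx : ∀ z ∈ L, 0 ≤ z.1 ∧ z.1 ≤ 1)
    {p : V} (hp : p ∈ L) {s t : ℝ} (hst : 0 < s + t)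
    (ha : ∀ z ∈ L, p.1 + s * p.2 ≤ z.1 + s * z.2 ∧ z.1 + s * z.2 ≤ 1)
    (hb : ∀ z ∈ L, -p.1 + t * p.2 ≤ -z.1 + t * z.2 ∧ -z.1 + t * z.2 ≤ 0)
    {d : ℝ} (hd0 : 0 ≤ d) (hd1 : d ≤ 1) {x₃ w w' : V} (h3 : 0 ≤ x₃.2) (hw : w ∈ L)
    (hw3 : w - x₃ ∈ L) (hw' : w' - ((d, 0) : V) ∈ L) (hw3' : w' - x₃ ∈ L) :
    ∃ o : V, o ∈ L ∧ o - ((d, 0) : V) ∈ L ∧ o - x₃ ∈ L := by
  by_cases hP : 0 ≤ (x₃ + p).2
  · refine ⟨x₃ + p, above hL h0 h1 hst ha hb hw hw3 hP, ?_, by simpa using hp⟩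
    have e : x₃ + p - (d, 0) = (x₃ - (d, 0)) + p := by abel
    rw [e]
    refine above hL h0 h1 hst ha hb hw' ?_ ?_
    · have e2 : w' - (d, 0) - (x₃ - (d, 0)) = w' - x₃ := by abel
      rw [e2]; exact hw3'
    · simpa using hP
  push Not at hP
  have a0 := hx w hw
  have a0' := hx _ hw3
  have a3 := hx _ hw'
  have a4 := hx _ hw3'
  have a1 := ha w hw
  have a2 := ha _ hw3
  have b1 := hb _ hw'
  have b2 := hb _ hw3'
  simp only [Prod.fst_sub, Prod.snd_sub] at a0' a2 a3 a4 b1 b2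
  simp only [Prod.snd_add] at hP
  have hT : Convex ℝ {z : V | z - x₃ ∈ L} := by
    intro z hz z' hz' a b ha hb hab
    have := hL hz hz' ha hb hab
    have e : a • (z - x₃) + b • (z' - x₃) = (a • z + b • z') - x₃ := by
      have : x₃ = (a + b) • x₃ := by rw [hab, one_smul]
      conv_rhs => rw [this]
      module
    rwa [e] at this
  obtain ⟨z₁, hz1, e1⟩ : ∃ z₁ : ℝ, ((z₁, 0) : V) - x₃ ∈ L ∧ z₁ ≤ 1 := by
    by_cases hwy : w.2 ≤ 0
    · obtain ⟨τ, t0, t1, t2, t3⟩ := cross hT (w := w) (z := x₃) hw3 (by show x₃ - x₃ ∈ L; rw [sub_self]; exact h0) hwy h3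
      exact ⟨_, t2, by nlinarith⟩
    · push Not at hwy
      obtain ⟨τ, t0, t1, t2, t3⟩ := cross hT (w := x₃ + p) (z := w) (by simpa using hp) hw3
        (by simpa using hP.le) hwy.le
      refine ⟨_, t2, ?_⟩
      simp only [Prod.fst_add, Prod.snd_add] at t3 ⊢
      have k : (1 - τ) * ((x₃.1 + p.1) + s * (x₃.2 + p.2)) + τ * (w.1 + s * w.2) ≤
          (1 - τ) * 1 + τ * 1 :=
        add_le_add (mul_le_mul_of_nonneg_left (by linarith [a2.1, a1.2]) (by linarith))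
          (mul_le_mul_of_nonneg_left a1.2 t0)
      have k2 : s * ((1 - τ) * (x₃.2 + p.2) + τ * w.2) = 0 := by rw [t3, mul_zero]
      linarith
  obtain ⟨z₂, hz2, e2⟩ : ∃ z₂ : ℝ, ((z₂, 0) : V) - x₃ ∈ L ∧ d ≤ z₂ := by
    by_cases hwy : w'.2 ≤ 0
    · obtain ⟨σ, s0, s1, s2, s3⟩ := cross hT (w := w') (z := x₃ + (1, 0)) hw3'
        (by simpa using h1) hwy (by simpa using h3)
      refine ⟨_, s2, ?_⟩
      simp only [Prod.fst_add]
      nlinarith
    · push Not at hwy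
      obtain ⟨τ, t0, t1, t2, t3⟩ := cross hT (w := x₃ + p) (z := w') (by simpa using hp) hw3'
        (by simpa using hP.le) hwy.le
      refine ⟨_, t2, ?_⟩
      simp only [Prod.fst_add, Prod.snd_add] at t3 ⊢
      have k : (1 - τ) * (-(x₃.1 + p.1) + t * (x₃.2 + p.2)) + τ * (-w'.1 + t * w'.2) ≤
          (1 - τ) * (-d) + τ * (-d) :=
        add_le_add (mul_le_mul_of_nonneg_left (by linarith [b2.1, b1.2]) (by linarith))
          (mul_le_mul_of_nonneg_left (by linarith [b1.2]) t0)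
      have k2 : t * ((1 - τ) * (x₃.2 + p.2) + τ * w'.2) = 0 := by rw [t3, mul_zero]
      linarith
  exact interval hL h0 h1 hd0 hd1 hz1 hz2 e1 e2

/-- the tie lemma in coordinates -/
theorem tieC {L : Set V} (hL : Convex ℝ L) (h0 : ((0, 0) : V) ∈ L) (h1 : ((1, 0) : V) ∈ L)
    (hx : ∀ z ∈ L, 0 ≤ z.1 ∧ z.1 ≤ 1)
    (hc : (∀ z ∈ L, z.2 ≤ 0) ∨ ∃ p ∈ L, ∃ s t : ℝ, 0 < s + t ∧
      (∀ z ∈ L, p.1 + s * p.2 ≤ z.1 + s * z.2 ∧ z.1 + s * z.2 ≤ 1) ∧
      (∀ z ∈ L, -p.1 + t * p.2 ≤ -z.1 + t * z.2 ∧ -z.1 + t * z.2 ≤ 0))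
    {x₁ x₂ x₃ u w w' : V} (hg : x₁.2 = x₂.2) (hg3 : x₁.2 ≤ x₃.2)
    (hu1 : u - x₁ ∈ L) (hu2 : u - x₂ ∈ L) (hw1 : w - x₁ ∈ L) (hw3 : w - x₃ ∈ L)
    (hv2 : w' - x₂ ∈ L) (hv3 : w' - x₃ ∈ L) :
    ∃ o : V, o - x₁ ∈ L ∧ o - x₂ ∈ L ∧ o - x₃ ∈ L := by
  wlog hle : x₁.1 ≤ x₂.1 generalizing x₁ x₂ w w'
  · obtain ⟨o, o1, o2, o3⟩ := this (x₁ := x₂) (x₂ := x₁) (w := w') (w' := w) hg.symm
      (by rw [← hg]; exact hg3) hu2 hu1 hv2 hv3 hw1 hw3 (by linarith [not_le.1 hle])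
    exact ⟨o, o2, o1, o3⟩
  have b1 := hx _ hu1
  have b2 := hx _ hu2
  simp only [Prod.fst_sub] at b1 b2
  have hx2 : x₂ = x₁ + (x₂.1 - x₁.1, 0) := by
    ext
    · simp
    · simp [hg]
  have key : ∃ o : V, o ∈ L ∧ o - ((x₂.1 - x₁.1, 0) : V) ∈ L ∧ o - (x₃ - x₁) ∈ L := by
    have m2 : (w' - x₁) - ((x₂.1 - x₁.1, 0) : V) ∈ L := by
      have e : (w' - x₁) - ((x₂.1 - x₁.1, 0) : V) = w' - x₂ := by
        conv_rhs => rw [hx2]
        abel
      rw [e]; exact hv2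
    have m3 : (w - x₁) - (x₃ - x₁) ∈ L := by
      rw [sub_sub_sub_cancel_right]; exact hw3
    have m4 : (w' - x₁) - (x₃ - x₁) ∈ L := by
      rw [sub_sub_sub_cancel_right]; exact hv3
    have k3 : 0 ≤ (x₃ - x₁).2 := by simp only [Prod.snd_sub]; linarith
    rcases hc with hE | ⟨p, hp, s, t, hst, ha, hb⟩
    · exact tieE hL h0 h1 hx hE (by linarith) (by linarith) k3 hw1 m3 m2 m4
    · exact tieB hL h0 h1 hx hp hst ha hb (by linarith) (by linarith) k3 hw1 m3 m2 m4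
  obtain ⟨o, o1, o2, o3⟩ := key
  refine ⟨o + x₁, by simpa using o1, ?_, ?_⟩
  · have e : o + x₁ - x₂ = o - ((x₂.1 - x₁.1, 0) : V) := by
      conv_lhs => rw [hx2]
      abel
    rw [e]; exact o2
  · have e : o + x₁ - x₃ = o - (x₃ - x₁) := by abel
    rw [e]; exact o3

/-- `p`, `q`, `r` are points of `L` which lie pairwise on two different parallel support lines. -/
structure AT (L : Set V) (p q r a b c : V) : Prop where
  hp : p ∈ L
  hq : q ∈ L
  hr : r ∈ L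
  a1 : ∀ x ∈ L, dt a p ≤ dt a x
  a2 : ∀ x ∈ L, dt a x ≤ dt a q
  b1 : ∀ x ∈ L, dt b p ≤ dt b x
  b2 : ∀ x ∈ L, dt b x ≤ dt b r
  c1 : ∀ x ∈ L, dt c r ≤ dt c x
  c2 : ∀ x ∈ L, dt c x ≤ dt c q
  apq : dt a p < dt a q
  bpr : dt b p < dt b r
  crq : dt c r < dt c q

/-- two functionals which vanish on the same nonzero vector are proportional -/
theorem prop2 {g n v : V} (hg : dt g v = 0) (hn : dt n v = 0) (hv : v ≠ 0) (hg0 : g ≠ 0) :
    ∃ s : ℝ, n = s • g := by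
  obtain ⟨v1, v2⟩ := v
  obtain ⟨g1, g2⟩ := g
  obtain ⟨n1, n2⟩ := n
  simp only [dt] at hg hn
  have hcr : n1 * g2 = n2 * g1 := by
    by_cases h1 : v1 = 0
    · have h2 : v2 ≠ 0 := by
        rintro rfl
        exact hv (by rw [h1]; rfl)
      subst h1
      have k1 : g2 = 0 := by
        have : g2 * v2 = 0 := by linarith
        exact (mul_eq_zero.1 this).resolve_right h2
      have k2 : n2 = 0 := by
        have : n2 * v2 = 0 := by linarith
        exact (mul_eq_zero.1 this).resolve_right h2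
      rw [k1, k2]; ring
    · have : v1 * (n1 * g2) = v1 * (n2 * g1) := by linear_combination g2 * hn - n2 * hg
      exact mul_left_cancel₀ h1 this
  by_cases h1 : g1 = 0
  · have h2 : g2 ≠ 0 := by
      rintro rfl
      exact hg0 (by rw [h1]; rfl)
    refine ⟨n2 / g2, ?_⟩
    ext
    · simp only [Prod.smul_fst, smul_eq_mul]
      rw [h1, mul_zero] at hcr
      rw [h1, mul_zero]
      exact (mul_eq_zero.1 hcr).resolve_right h2
    · simp only [Prod.smul_snd, smul_eq_mul]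
      field_simp
  · refine ⟨n1 / g1, ?_⟩
    ext
    · simp only [Prod.smul_fst, smul_eq_mul]
      field_simp
    · simp only [Prod.smul_snd, smul_eq_mul]
      field_simp
      linarith

/-- the tie lemma, with the functional `g` in general position coordinates -/
theorem tieG {L : Set V} (hL : Convex ℝ L) {q r c g : V} (hq : q ∈ L) (hr : r ∈ L)
    (hg : dt g (q - r) = 0) (hg0 : g ≠ 0) (hc : dt c (q - r) = 1)
    (hx : ∀ z ∈ L, 0 ≤ dt c (z - r) ∧ dt c (z - r) ≤ 1)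
    (hcase : (∀ z ∈ L, dt g (z - r) ≤ 0) ∨ ∃ p ∈ L, ∃ s t : ℝ, 0 < s + t ∧
      (∀ z ∈ L, dt (c + s • g) (p - r) ≤ dt (c + s • g) (z - r) ∧
        dt (c + s • g) (z - r) ≤ 1) ∧
      (∀ z ∈ L, dt (t • g - c) (p - r) ≤ dt (t • g - c) (z - r) ∧ dt (t • g - c) (z - r) ≤ 0))
    {x₁ x₂ x₃ u w w' : V} (hg1 : dt g x₁ = dt g x₂) (hg3 : dt g x₁ ≤ dt g x₃)
    (hu1 : u - x₁ ∈ L) (hu2 : u - x₂ ∈ L) (hw1 : w - x₁ ∈ L) (hw3 : w - x₃ ∈ L)
    (hv2 : w' - x₂ ∈ L) (hv3 : w' - x₃ ∈ L) :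
    ∃ o : V, o - x₁ ∈ L ∧ o - x₂ ∈ L ∧ o - x₃ ∈ L := by
  have hcr : c.1 * g.2 - c.2 * g.1 ≠ 0 := by
    intro h0
    apply hg0
    have e1 : dt g (q - r) = 0 := hg
    have e2 : dt c (q - r) = 1 := hc
    simp only [dt] at e1 e2
    ext
    · simp only [Prod.fst_zero]
      linear_combination g.1 * e2 * (-1) + c.1 * e1 - (q - r).2 * h0
    · simp only [Prod.snd_zero]
      linear_combination g.2 * e2 * (-1) + c.2 * e1 + (q - r).1 * h0
  let Ψ : V → V := fun z => (dt c z, dt g z)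
  have hadd : ∀ z z', Ψ (z + z') = Ψ z + Ψ z' := fun z z' => by
    ext
    · exact dt_add _ _ _
    · exact dt_add _ _ _
  have hsub : ∀ z z', Ψ (z - z') = Ψ z - Ψ z' := fun z z' => by
    ext
    · exact dt_sub _ _ _
    · exact dt_sub _ _ _
  have hsm : ∀ (k : ℝ) z, Ψ (k • z) = k • Ψ z := fun k z => by
    ext
    · exact dt_smul _ _ _
    · exact dt_smul _ _ _
  have hinj : ∀ z z', Ψ z = Ψ z' → z = z' := by
    intro z z' h
    have h1 : dt c z = dt c z' := congrArg Prod.fst h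
    have h2 : dt g z = dt g z' := congrArg Prod.snd h
    simp only [dt] at h1 h2
    ext
    · refine mul_left_cancel₀ hcr ?_
      linear_combination g.2 * h1 - c.2 * h2
    · refine mul_left_cancel₀ hcr ?_
      linear_combination c.1 * h2 - g.1 * h1
  let L' : Set V := {z | ∃ y ∈ L, z = Ψ (y - r)}
  have hmem : ∀ y ∈ L, Ψ y - Ψ r ∈ L' := fun y hy => ⟨y, hy, (hsub y r).symm⟩
  have hL' : Convex ℝ L' := by
    rintro _ ⟨y, hy, rfl⟩ _ ⟨y', hy', rfl⟩ a b ha hb hab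
    refine ⟨a • y + b • y', hL hy hy' ha hb hab, ?_⟩
    rw [← hsm, ← hsm, ← hadd]
    congr 1
    have : r = (a + b) • r := by rw [hab, one_smul]
    conv_rhs => rw [this]
    module
  have h0 : ((0, 0) : V) ∈ L' := ⟨r, hr, by
    show ((0, 0) : V) = (dt c (r - r), dt g (r - r))
    rw [sub_self]
    simp [dt]⟩
  have h1 : ((1, 0) : V) ∈ L' := ⟨q, hq, by
    show ((1, 0) : V) = (dt c (q - r), dt g (q - r))
    rw [hg, hc]⟩
  have hx' : ∀ z ∈ L', 0 ≤ z.1 ∧ z.1 ≤ 1 := by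
    rintro _ ⟨y, hy, rfl⟩
    exact hx y hy
  have hc' : (∀ z ∈ L', z.2 ≤ 0) ∨ ∃ p ∈ L', ∃ s t : ℝ, 0 < s + t ∧
      (∀ z ∈ L', p.1 + s * p.2 ≤ z.1 + s * z.2 ∧ z.1 + s * z.2 ≤ 1) ∧
      (∀ z ∈ L', -p.1 + t * p.2 ≤ -z.1 + t * z.2 ∧ -z.1 + t * z.2 ≤ 0) := by
    rcases hcase with h | ⟨p, hp, s, t, hst, ha, hb⟩
    · left
      rintro _ ⟨y, hy, rfl⟩
      exact h y hy
    · right
      refine ⟨Ψ (p - r), ⟨p, hp, rfl⟩, s, t, hst, ?_, ?_⟩
      · rintro _ ⟨y, hy, rfl⟩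
        have := ha y hy
        simp only [add_dt, smul_dt] at this
        exact this
      · rintro _ ⟨y, hy, rfl⟩
        have := hb y hy
        simp only [sub_dt, smul_dt] at this
        show -dt c (p - r) + t * dt g (p - r) ≤ -dt c (y - r) + t * dt g (y - r) ∧
          -dt c (y - r) + t * dt g (y - r) ≤ 0
        constructor
        · linarith [this.1]
        · linarith [this.2]
  have tr : ∀ y x : V, y - x ∈ L → (Ψ y - Ψ r) - Ψ x ∈ L' := by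
    intro y x h
    refine ⟨y - x, h, ?_⟩
    rw [hsub, hsub]
    abel
  obtain ⟨o, o1, o2, o3⟩ := tieC hL' h0 h1 hx' hc' (x₁ := Ψ x₁) (x₂ := Ψ x₂) (x₃ := Ψ x₃)
    hg1 hg3 (tr u x₁ hu1) (tr u x₂ hu2) (tr w x₁ hw1) (tr w x₃ hw3) (tr w' x₂ hv2) (tr w' x₃ hv3)
  obtain ⟨y₁, hy1, e1⟩ := o1
  obtain ⟨y₂, hy2, e2⟩ := o2
  obtain ⟨y₃, hy3, e3⟩ := o3
  have E : ∀ y x, o - Ψ x = Ψ (y - r) → o + Ψ r = Ψ (y + x) := by
    intro y x h
    rw [hadd]
    rw [hsub] at h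
    have : o = Ψ y - Ψ r + Ψ x := by rw [← h]; abel
    rw [this]; abel
  have E1 := E _ _ e1
  have E2 := E _ _ e2
  have E3 := E _ _ e3
  have F2 : y₂ + x₂ = y₁ + x₁ := hinj _ _ (by rw [← E2, ← E1])
  have F3 : y₃ + x₃ = y₁ + x₁ := hinj _ _ (by rw [← E3, ← E1])
  refine ⟨y₁ + x₁, by simpa using hy1, ?_, ?_⟩
  · rw [← F2]; simpa using hy2
  · rw [← F3]; simpa using hy3

/-- THE TIE LEMMA. -/
theorem tie {L : Set V} (hL : Convex ℝ L) {p q r a b c : V} (h : AT L p q r a b c) :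
    ∃ g : V, dt g (q - r) = 0 ∧ dt g p < dt g q ∧
      ∀ x₁ x₂ x₃ u w w' : V, dt g x₁ = dt g x₂ → dt g x₁ ≤ dt g x₃ →
      u - x₁ ∈ L → u - x₂ ∈ L → w - x₁ ∈ L → w - x₃ ∈ L → w' - x₂ ∈ L → w' - x₃ ∈ L →
      ∃ o : V, o - x₁ ∈ L ∧ o - x₂ ∈ L ∧ o - x₃ ∈ L := by
  have hC : 0 < dt c (q - r) := by rw [dt_sub]; linarith [h.crq]
  have hqr : q - r ≠ 0 := by
    intro h0
    rw [h0] at hC
    simp [dt] at hC
  obtain ⟨c', hc'⟩ : ∃ c' : V, c' = (1 / dt c (q - r)) • c := ⟨_, rfl⟩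
  have hcn : dt c' (q - r) = 1 := by
    rw [hc', smul_dt]; field_simp
  have hx : ∀ z ∈ L, 0 ≤ dt c' (z - r) ∧ dt c' (z - r) ≤ 1 := by
    intro z hz
    rw [hc', smul_dt]
    have h1 := h.c1 z hz
    have h2 := h.c2 z hz
    constructor
    · apply mul_nonneg (by positivity)
      rw [dt_sub]; linarith
    · rw [div_mul_eq_mul_div, one_mul, div_le_one hC, dt_sub, dt_sub]
      linarith
  have hA : 0 ≤ dt a (q - r) := by rw [dt_sub]; linarith [h.a2 r h.hr]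
  have hB : 0 ≤ dt b (r - q) := by rw [dt_sub]; linarith [h.b2 q h.hq]
  rcases hA.lt_or_eq with hA' | hA'
  · rcases hB.lt_or_eq with hB' | hB'
    · -- the case (B')
      obtain ⟨A, hAd⟩ : ∃ A, A = dt a (q - r) := ⟨_, rfl⟩
      obtain ⟨B, hBd⟩ : ∃ B, B = dt b (r - q) := ⟨_, rfl⟩
      rw [← hAd] at hA'
      rw [← hBd] at hB'
      have hbq : dt b (q - r) = - B := by
        rw [hBd, dt_sub, dt_sub]; ring
      obtain ⟨g, hg⟩ : ∃ g : V, g = B • a + A • b := ⟨_, rfl⟩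
      have hgq : dt g (q - r) = 0 := by
        rw [hg, add_dt, smul_dt, smul_dt, hbq, ← hAd]; ring
      have hgp : 0 < dt g (q - p) := by
        rw [hg, add_dt, smul_dt, smul_dt]
        have e2 : 0 < dt a (q - p) := by rw [dt_sub]; linarith [h.apq]
        have e3 : 0 ≤ dt b (q - p) := by rw [dt_sub]; linarith [h.b1 q h.hq]
        have e4 := mul_pos hB' e2
        have e5 := mul_nonneg hA'.le e3
        linarith
      have hg0 : g ≠ 0 := by
        intro h0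
        rw [h0] at hgp
        simp [dt] at hgp
      obtain ⟨s, hs⟩ := prop2 (g := g) (n := (1 / A) • a - c') hgq (by
        rw [sub_dt, smul_dt, hcn, ← hAd]; field_simp; ring) hqr hg0
      obtain ⟨t, ht⟩ := prop2 (g := g) (n := (1 / B) • b + c') hgq (by
        rw [add_dt, smul_dt, hcn, hbq]; field_simp; ring) hqr hg0
      have hs' : c' + s • g = (1 / A) • a := by rw [← hs]; abel
      have ht' : t • g - c' = (1 / B) • b := by rw [← ht]; abel
      have hst : s + t = 1 / (A * B) := by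
        have e : (s + t) • g = (1 / (A * B)) • g := by
          rw [add_smul]
          have e1 : s • g + t • g = (1 / A) • a + (1 / B) • b := by
            rw [← hs', ← ht']; abel
          rw [e1, hg, smul_add, smul_smul, smul_smul]
          congr 2
          · field_simp
          · field_simp
        by_contra hne
        have e2 : (s + t - 1 / (A * B)) • g = 0 := by rw [sub_smul, e, sub_self]
        rcases smul_eq_zero.1 e2 with h3 | h3
        · exact hne (by linarith)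
        · exact hg0 h3
      refine ⟨g, hgq, by rw [dt_sub] at hgp; linarith, fun x₁ x₂ x₃ u w w' k1 k2 m1 m2 m3 m4 m5 m6 =>
        tieG hL h.hq h.hr hgq hg0 hcn hx (Or.inr ⟨p, h.hp, s, t, ?_, ?_, ?_⟩) k1 k2
          m1 m2 m3 m4 m5 m6⟩
      · rw [hst]; positivity
      · intro z hz
        rw [hs', smul_dt, smul_dt]
        constructor
        · apply mul_le_mul_of_nonneg_left _ (by positivity)
          rw [dt_sub, dt_sub]; linarith [h.a1 z hz]
        · rw [div_mul_eq_mul_div, one_mul, div_le_one hA', hAd, dt_sub, dt_sub]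
          linarith [h.a2 z hz]
      · intro z hz
        rw [ht', smul_dt, smul_dt]
        constructor
        · apply mul_le_mul_of_nonneg_left _ (by positivity)
          rw [dt_sub, dt_sub]; linarith [h.b1 z hz]
        · apply mul_nonpos_of_nonneg_of_nonpos (by positivity)
          rw [dt_sub]; linarith [h.b2 z hz]
    · -- `b q = b r`
      have hb0 : b ≠ 0 := by
        rintro rfl
        have := h.bpr
        simp [dt] at this
      have hbq : dt b (q - r) = 0 := by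
        have e : dt b (q - r) = - dt b (r - q) := by rw [dt_sub, dt_sub]; ring
        rw [e, ← hB', neg_zero]
      have hbe : dt b q = dt b r := by
        rw [dt_sub] at hbq; linarith
      refine ⟨b, hbq, by rw [hbe]; exact h.bpr, fun x₁ x₂ x₃ u w w' k1 k2 m1 m2 m3 m4 m5 m6 =>
        tieG hL h.hq h.hr hbq hb0 hcn hx (Or.inl fun z hz => ?_) k1 k2
          m1 m2 m3 m4 m5 m6⟩
      rw [dt_sub]; linarith [h.b2 z hz]
  · -- `a q = a r`
    have ha0 : a ≠ 0 := by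
      rintro rfl
      have := h.apq
      simp [dt] at this
    refine ⟨a, hA'.symm, h.apq, fun x₁ x₂ x₃ u w w' k1 k2 m1 m2 m3 m4 m5 m6 =>
      tieG hL h.hq h.hr hA'.symm ha0 hcn hx (Or.inl fun z hz => ?_) k1 k2
        m1 m2 m3 m4 m5 m6⟩
    have e : dt a q = dt a r := by
      have := hA'
      rw [dt_sub] at this
      linarith
    rw [dt_sub]; linarith [h.a2 z hz]

/-- the class (B) in the coordinates of `H28/AP` -/
theorem tieB' {L : Set V} {p q r a b : V} (h : AP.Cl L p q r a b) : AP.TieP L := by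
  have hAT : AT L p q r a b ((1, 0) : V) :=
    { hp := h.pm
      hq := h.qm
      hr := h.rm
      a1 := fun x hx => (h.fa x hx).1
      a2 := fun x hx => (h.fa x hx).2
      b1 := fun x hx => (h.fb x hx).1
      b2 := fun x hx => (h.fb x hx).2
      c1 := fun x hx => by
        have := (h.fc x hx).1
        simpa [dt] using this
      c2 := fun x hx => by
        have := (h.fc x hx).2
        simpa [dt] using this
      apq := h.ha
      bpr := h.hb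
      crq := by
        have := h.hrq
        simpa [dt] using this }
  obtain ⟨g, hg1, hg2, hg3⟩ := tie h.conv hAT
  have hqr : q - r ≠ 0 := by
    intro h0
    have h1 := congrArg Prod.fst h0
    have h2 : q.1 - r.1 = 0 := h1
    linarith [h.hrq]
  have hv0 : ((0, 1) : V) ≠ 0 := by
    intro h0
    have h1 := congrArg Prod.snd h0
    exact one_ne_zero h1
  obtain ⟨s, hs⟩ := prop2 (g := ((0, 1) : V)) (n := g) (by
    simp only [dt, Prod.snd_sub, Prod.fst_sub, zero_mul, one_mul, zero_add]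
    linarith [h.hqr]) hg1 hqr hv0
  have hd : ∀ x : V, dt g x = s * x.2 := by
    intro x
    rw [hs, smul_dt]
    simp [dt]
  have hs0 : 0 < s := by
    rw [hd, hd] at hg2
    by_contra hneg
    push Not at hneg
    have : s * (q.2 - p.2) ≤ 0 :=
      mul_nonpos_of_nonpos_of_nonneg hneg (by linarith [h.hpr, h.hqr])
    linarith
  rintro x₁ x₂ x₃ e1 e2 ⟨u, u1, u2⟩ ⟨w, w1, w2⟩ ⟨v, v1, v2⟩
  exact hg3 x₁ x₂ x₃ u w v (by rw [hd, hd, e1]) (by
    rw [hd, hd]; exact mul_le_mul_of_nonneg_left e2 hs0.le) u1 u2 w1 w2 v1 v2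

/-- the tie lemma with a linear functional -/
theorem tieL {L : Set V} (hL : Convex ℝ L) {p q r a b c : V} (h : AT L p q r a b c) :
    ∃ g : V →ₗ[ℝ] ℝ, ∀ x₁ x₂ x₃ : V, g x₁ = g x₂ → g x₁ ≤ g x₃ →
      (∃ w, w - x₁ ∈ L ∧ w - x₂ ∈ L) → (∃ w, w - x₁ ∈ L ∧ w - x₃ ∈ L) →
      (∃ w, w - x₂ ∈ L ∧ w - x₃ ∈ L) →
      ∃ o : V, o - x₁ ∈ L ∧ o - x₂ ∈ L ∧ o - x₃ ∈ L := by
  obtain ⟨g, -, -, hg3⟩ := tie hL h
  refine ⟨{ toFun := fun x => dt g x, map_add' := dt_add g, map_smul' := fun m x => dt_smul g x m },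
    ?_⟩
  rintro x₁ x₂ x₃ e1 e2 ⟨u, u1, u2⟩ ⟨w, w1, w2⟩ ⟨v, v1, v2⟩
  exact hg3 x₁ x₂ x₃ u w v e1 e2 u1 u2 w1 w2 v1 v2

/-- Homothetic copies are in the class. -/
theorem AT.hom {L : Set V} {p q r a b c : V} (h : AT L p q r a b c) {k : ℝ} (hk : 0 < k) (v : V) :
    AT ((fun x => k • x + v) '' L) (k • p + v) (k • q + v) (k • r + v) a b c where
  hp := ⟨p, h.hp, rfl⟩
  hq := ⟨q, h.hq, rfl⟩
  hr := ⟨r, h.hr, rfl⟩
  a1 := by
    rintro _ ⟨x, hx, rfl⟩
    simp only [dt_add, dt_smul]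
    linarith [mul_le_mul_of_nonneg_left (h.a1 x hx) hk.le]
  a2 := by
    rintro _ ⟨x, hx, rfl⟩
    simp only [dt_add, dt_smul]
    linarith [mul_le_mul_of_nonneg_left (h.a2 x hx) hk.le]
  b1 := by
    rintro _ ⟨x, hx, rfl⟩
    simp only [dt_add, dt_smul]
    linarith [mul_le_mul_of_nonneg_left (h.b1 x hx) hk.le]
  b2 := by
    rintro _ ⟨x, hx, rfl⟩
    simp only [dt_add, dt_smul]
    linarith [mul_le_mul_of_nonneg_left (h.b2 x hx) hk.le]
  c1 := by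
    rintro _ ⟨x, hx, rfl⟩
    simp only [dt_add, dt_smul]
    linarith [mul_le_mul_of_nonneg_left (h.c1 x hx) hk.le]
  c2 := by
    rintro _ ⟨x, hx, rfl⟩
    simp only [dt_add, dt_smul]
    linarith [mul_le_mul_of_nonneg_left (h.c2 x hx) hk.le]
  apq := by
    simp only [dt_add, dt_smul]
    linarith [mul_lt_mul_of_pos_left h.apq hk]
  bpr := by
    simp only [dt_add, dt_smul]
    linarith [mul_lt_mul_of_pos_left h.bpr hk]
  crq := by
    simp only [dt_add, dt_smul]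
    linarith [mul_lt_mul_of_pos_left h.crq hk]

/-- The opposite body. -/
theorem AT.neg {L : Set V} {p q r a b c : V} (h : AT L p q r a b c) :
    AT ((fun x => -x) '' L) (-p) (-q) (-r) (-a) (-b) (-c) where
  hp := ⟨p, h.hp, rfl⟩
  hq := ⟨q, h.hq, rfl⟩
  hr := ⟨r, h.hr, rfl⟩
  a1 := by
    rintro _ ⟨x, hx, rfl⟩
    simp only [dt_neg, neg_dt, neg_neg]
    exact h.a1 x hx
  a2 := by
    rintro _ ⟨x, hx, rfl⟩
    simp only [dt_neg, neg_dt, neg_neg]
    exact h.a2 x hx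
  b1 := by
    rintro _ ⟨x, hx, rfl⟩
    simp only [dt_neg, neg_dt, neg_neg]
    exact h.b1 x hx
  b2 := by
    rintro _ ⟨x, hx, rfl⟩
    simp only [dt_neg, neg_dt, neg_neg]
    exact h.b2 x hx
  c1 := by
    rintro _ ⟨x, hx, rfl⟩
    simp only [dt_neg, neg_dt, neg_neg]
    exact h.c1 x hx
  c2 := by
    rintro _ ⟨x, hx, rfl⟩
    simp only [dt_neg, neg_dt, neg_neg]
    exact h.c2 x hx
  apq := by
    simp only [dt_neg, neg_dt, neg_neg]
    exact h.apq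
  bpr := by
    simp only [dt_neg, neg_dt, neg_neg]
    exact h.bpr
  crq := by
    simp only [dt_neg, neg_dt, neg_neg]
    exact h.crq

end TL
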